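import Pool.Agent.Helper94.KC.GoalsC

/-!
# Project KC (MP_bf413e_co), packet NB: a stuck set contains a cycle which does not bound
-/

set_option autoImplicit false

namespace Pool.Agent.Helper66.KC

open scoped Classical
open Finset Pool.Agent.Helper94.KC

theorem nb (hXN : StmtXN) (hRK : StmtRK) (hIN : StmtIN) (hCN2 : StmtCN2) : StmtNB := by
  intro V _ T hT hdeg W hne huniv hcW hcU hstuck
  obtain ⟨hchi, -⟩ := hXN V T hT hdeg W hne huniv hstuck
  by_cases hall : ∀ z ⊆ edW T W, Even2 z → Bounds T z
  · exfalso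
    have hsub : edW T W ⊆ ed T := Finset.filter_subset _ _
    have h1 := (hRK V T hT W (edW T W) (trW T W) hne hsub
      (fun e he => (Finset.mem_filter.1 he).2) (Finset.filter_subset _ _)
      (fun t ht e he het => Finset.mem_filter.2
        ⟨he, het.trans (Finset.mem_filter.1 ht).2⟩) hcW).1
      (fun z hz hev => hIN V T hT W huniv hcU z hz (hall z hz hev))
    unfold chiW at hchi
    omega
  · push Not at hall
    obtain ⟨z, hz, hev, hnb⟩ := hall
    obtain ⟨x, w, hw, hwz, hwb⟩ := hCN2 V T hT z (hz.trans (Finset.filter_subset _ _)) hev hnb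
    refine ⟨x, w, hw, ?_, hwb⟩
    intro v hv
    obtain ⟨e, he, hve⟩ := (SimpleGraph.Walk.mem_support_iff_exists_mem_edges_of_not_nil
      hw.not_nil).1 hv
    have h2 : e.toFinset ∈ wed w := by
      unfold wed
      rw [List.mem_toFinset, List.mem_map]
      exact ⟨e, he, rfl⟩
    exact (Finset.mem_filter.1 (hz (hwz h2))).2 (Sym2.mem_toFinset.2 hve)

end Pool.Agent.Helper66.KC
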